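import Pool.Agent.Helper59.LUC.Goals

set_option autoImplicit false

namespace Pool.Agent.Helper59.LUC

namespace PkLT4

/-- The ring `Z[lam]`, for a root `lam` of `x^2 - T x + N`. -/
def ring (T N : ℤ) (lam : ℂ) (h : lam ^ 2 = T * lam - N) : Subring ℂ where
  carrier := {z | ∃ u v : ℤ, z = u + v * lam}
  zero_mem' := ⟨0, 0, by simp⟩
  one_mem' := ⟨1, 0, by simp⟩
  add_mem' := by
    rintro a b ⟨u, v, rfl⟩ ⟨u', v', rfl⟩
    exact ⟨u + u', v + v', by push_cast; ring⟩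
  neg_mem' := by
    rintro a ⟨u, v, rfl⟩
    exact ⟨-u, -v, by push_cast; ring⟩
  mul_mem' := by
    rintro a b ⟨u, v, rfl⟩ ⟨u', v', rfl⟩
    refine ⟨u * u' - v * v' * N, u * v' + v * u' + v * v' * T, ?_⟩
    push_cast
    linear_combination (v : ℂ) * v' * h

lemma mem_ring {T N : ℤ} {lam : ℂ} {h : lam ^ 2 = T * lam - N} {z : ℂ} :
    z ∈ ring T N lam h ↔ ∃ u v : ℤ, z = u + v * lam := Iff.rfl

theorem thm : G_LT4 := by
  intro T M η h ι _ _ a b X s S hs hdet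
  set lam : ℂ := M * η with hlam
  have h1 : lam ^ 2 = T * lam - ((M ^ 2 : ℤ) : ℂ) := by
    rw [hlam]
    push_cast
    linear_combination (M : ℂ) * h.hη
  have hMC := h.MC
  have hη1 := h.norm_eq
  have hMpos := h.MR
  -- the determinant multiplied by the power of M
  have h2 : Matrix.det (Matrix.of fun i j : ι =>
      (M : ℂ) ^ (b i * S) * ((Matrix.of fun i j : ι => ((X j : ℤ) : ℂ) ^ a i * η ^ (b i * s j)) i j)) =
      (∏ i, (M : ℂ) ^ (b i * S)) *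
        Matrix.det (Matrix.of fun i j : ι => ((X j : ℤ) : ℂ) ^ a i * η ^ (b i * s j)) :=
    Matrix.det_mul_column (fun i => (M : ℂ) ^ (b i * S)) _
  have h3 : ∏ i, (M : ℂ) ^ (b i * S) = (M : ℂ) ^ (S * ∑ i, b i) := by
    rw [Finset.prod_pow_eq_pow_sum, Finset.mul_sum]
    congr 1
    exact Finset.sum_congr rfl (fun i _ => mul_comm _ _)
  rw [h3] at h2
  have h4 : Matrix.det (Matrix.of fun i j : ι =>
      (M : ℂ) ^ (b i * S) * ((Matrix.of fun i j : ι => ((X j : ℤ) : ℂ) ^ a i * η ^ (b i * s j)) i j)) ∈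
      ring T (M ^ 2) lam h1 := by
    rw [Matrix.det_apply]
    apply Subring.sum_mem
    intro σ _
    apply Subring.zsmul_mem
    apply Subring.prod_mem
    intro i _
    have h5 : (Matrix.of fun i j : ι =>
      (M : ℂ) ^ (b i * S) * ((Matrix.of fun i j : ι => ((X j : ℤ) : ℂ) ^ a i * η ^ (b i * s j)) i j)) (σ i) i =
      ((X i : ℤ) : ℂ) ^ a (σ i) * (((M : ℤ) : ℂ) ^ (b (σ i) * (S - s i)) * lam ^ (b (σ i) * s i)) := by
      simp only [Matrix.of_apply]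
      have h6 : b (σ i) * S = b (σ i) * (S - s i) + b (σ i) * s i := by
        rw [← Nat.mul_add, Nat.sub_add_cancel (hs i)]
      rw [h6, pow_add, hlam, mul_pow]
      ring
    rw [h5]
    have hint : ∀ z : ℤ, ((z : ℤ) : ℂ) ∈ ring T (M ^ 2) lam h1 := fun z => ⟨z, 0, by simp⟩
    have hl : lam ∈ ring T (M ^ 2) lam h1 := ⟨0, 1, by simp⟩
    exact Subring.mul_mem _ (Subring.pow_mem _ (hint _) _)
      (Subring.mul_mem _ (Subring.pow_mem _ (hint _) _) (Subring.pow_mem _ hl _))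
  rw [h2, mem_ring] at h4
  obtain ⟨u, v, huv⟩ := h4
  set D := Matrix.det (Matrix.of fun i j : ι => ((X j : ℤ) : ℂ) ^ a i * η ^ (b i * s j)) with hD
  have hne : (M : ℂ) ^ (S * ∑ i, b i) * D ≠ 0 := mul_ne_zero (pow_ne_zero _ hMC) hdet
  -- norm square
  have h7 : ((‖(u : ℂ) + v * lam‖ ^ 2 : ℝ) : ℂ) = ((u ^ 2 + u * v * T + v ^ 2 * M ^ 2 : ℤ) : ℂ) := by
    rw [← Complex.normSq_eq_norm_sq, ← Complex.mul_conj, map_add, map_mul, hlam, map_mul, h.conj_eq]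
    simp only [map_intCast]
    push_cast
    have h8 := h.add_inv
    have h9 : η * η⁻¹ = 1 := mul_inv_cancel₀ h.ne_zero
    linear_combination (u : ℂ) * v * h8 + (v : ℂ) ^ 2 * M ^ 2 * h9
  have h8 : ‖(u : ℂ) + v * lam‖ ^ 2 = ((u ^ 2 + u * v * T + v ^ 2 * M ^ 2 : ℤ) : ℝ) := by
    exact_mod_cast h7
  have h9 : 0 < ‖(u : ℂ) + v * lam‖ := by
    rw [← huv]
    exact norm_pos_iff.mpr hne
  have h10 : (1 : ℝ) ≤ ‖(u : ℂ) + v * lam‖ ^ 2 := by
    have h11 : 0 < ‖(u : ℂ) + v * lam‖ ^ 2 := by positivity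
    rw [h8] at h11 ⊢
    have h12 : 0 < (u ^ 2 + u * v * T + v ^ 2 * M ^ 2 : ℤ) := by exact_mod_cast h11
    exact_mod_cast h12
  have h13 : (1 : ℝ) ≤ ‖(u : ℂ) + v * lam‖ := by
    by_contra hcon
    push Not at hcon
    nlinarith [norm_nonneg ((u : ℂ) + v * lam)]
  rw [← huv, norm_mul, norm_pow] at h13
  have h14 : ‖(M : ℂ)‖ = (M : ℝ) := by
    rw [Complex.norm_intCast, abs_of_pos hMpos]
  rw [h14] at h13
  linarith [mul_comm ((M : ℝ) ^ (S * ∑ i, b i)) ‖D‖]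

end PkLT4

end Pool.Agent.Helper59.LUC
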