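import Pool.Agent.Helper59.LUC.Goals

set_option autoImplicit false

namespace Pool.Agent.Helper59.LUC

namespace PkNT

lemma key (p : ℕ) (hp : p.Prime) :
    (2 : ℝ) ≤ (if p < 256 then 4 else 1) * ((1 - (p : ℝ)⁻¹) * (p : ℝ) ^ ((1 : ℝ) / 4)) := by
  have hp2 : (2 : ℝ) ≤ p := by exact_mod_cast hp.two_le
  have h1 : (1 : ℝ) / 2 ≤ 1 - (p : ℝ)⁻¹ := by
    have : (p : ℝ)⁻¹ ≤ (2 : ℝ)⁻¹ := inv_anti₀ (by norm_num) hp2
    linarith
  split_ifs with h
  · have h2 : (1 : ℝ) ≤ (p : ℝ) ^ ((1 : ℝ) / 4) := Real.one_le_rpow (by linarith) (by norm_num)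
    nlinarith
  · have h3 : (256 : ℝ) ≤ p := by
      push Not at h
      exact_mod_cast h
    have h2 : (4 : ℝ) ≤ (p : ℝ) ^ ((1 : ℝ) / 4) := by
      have h4 : (256 : ℝ) ^ ((1 : ℝ) / 4) = 4 := by
        have : (256 : ℝ) = 4 ^ (4 : ℝ) := by norm_num
        rw [this, ← Real.rpow_mul (by norm_num)]
        norm_num
      have h5 : (256 : ℝ) ^ ((1 : ℝ) / 4) ≤ (p : ℝ) ^ ((1 : ℝ) / 4) :=
        Real.rpow_le_rpow (by norm_num) h3 (by norm_num)
      linarith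
    have h6 : (1 / 2 : ℝ) * 4 ≤ (1 - (p : ℝ)⁻¹) * (p : ℝ) ^ ((1 : ℝ) / 4) :=
      mul_le_mul h1 h2 (by norm_num) (by linarith)
    linarith

theorem thm : G_NT := by
  refine ⟨4 ^ 256, by positivity, fun r hr => ?_⟩
  have hr0 : (0 : ℝ) < r := by exact_mod_cast hr
  have h1 : (r.totient : ℝ) = r * ∏ p ∈ r.primeFactors, (1 - (p : ℝ)⁻¹) := by
    have h := Nat.totient_eq_mul_prod_factors r
    have h' := congrArg (fun x : ℚ => (x : ℝ)) h
    push_cast at h'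
    exact h'
  have h2 : ∏ p ∈ r.primeFactors, (p : ℝ) ≤ r := by
    have h := Nat.le_of_dvd (by omega) (Nat.prod_primeFactors_dvd r)
    have h' : ((∏ p ∈ r.primeFactors, p : ℕ) : ℝ) ≤ r := Nat.cast_le.mpr h
    rw [Nat.cast_prod] at h'
    exact h'
  have hpos : ∀ p ∈ r.primeFactors, (0 : ℝ) ≤ 1 - (p : ℝ)⁻¹ := by
    intro p hp
    have hp2 : (1 : ℝ) ≤ p := by exact_mod_cast (Nat.prime_of_mem_primeFactors hp).one_le
    have : (p : ℝ)⁻¹ ≤ 1 := inv_le_one_of_one_le₀ hp2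
    linarith
  have h3 : (2 : ℝ) ^ (r.primeFactors.card) ≤
      4 ^ 256 * ((∏ p ∈ r.primeFactors, (1 - (p : ℝ)⁻¹)) * (∏ p ∈ r.primeFactors, (p : ℝ)) ^ ((1 : ℝ) / 4)) := by
    have h4 : (2 : ℝ) ^ (r.primeFactors.card) = ∏ p ∈ r.primeFactors, (2 : ℝ) := by simp
    have h5 : ∏ p ∈ r.primeFactors, (2 : ℝ) ≤
        ∏ p ∈ r.primeFactors, ((if p < 256 then 4 else 1) * ((1 - (p : ℝ)⁻¹) * (p : ℝ) ^ ((1 : ℝ) / 4))) := by
      apply Finset.prod_le_prod
      · intro i _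
        norm_num
      · intro p hp
        exact key p (Nat.prime_of_mem_primeFactors hp)
    rw [h4]
    refine h5.trans ?_
    rw [Finset.prod_mul_distrib, Finset.prod_mul_distrib, Real.finsetProd_rpow _ _ (fun i _ => by positivity)]
    apply mul_le_mul_of_nonneg_right
    · have h6 : ∏ p ∈ r.primeFactors, (if p < 256 then (4 : ℝ) else 1) =
          4 ^ ((r.primeFactors.filter (fun p => p < 256)).card) := by
        rw [Finset.prod_ite]
        simp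
      rw [h6]
      apply pow_le_pow_right₀ (by norm_num)
      calc ((r.primeFactors.filter (fun p => p < 256)).card) ≤ (Finset.range 256).card := by
            apply Finset.card_le_card
            intro p hp
            simp only [Finset.mem_filter] at hp
            simpa using hp.2
        _ = 256 := by simp
    · apply mul_nonneg
      · exact Finset.prod_nonneg hpos
      · apply Real.rpow_nonneg
        exact Finset.prod_nonneg (fun i _ => by positivity)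
  have h7 : (∏ p ∈ r.primeFactors, (p : ℝ)) ^ ((1 : ℝ) / 4) ≤ (r : ℝ) ^ ((1 : ℝ) / 4) :=
    Real.rpow_le_rpow (Finset.prod_nonneg (fun i _ => by positivity)) h2 (by norm_num)
  have h8 : (r : ℝ) ^ ((1 : ℝ) / 4) * (r : ℝ) ^ ((3 : ℝ) / 4) = r := by
    rw [← Real.rpow_add hr0]
    norm_num
  have hP : 0 ≤ ∏ p ∈ r.primeFactors, (1 - (p : ℝ)⁻¹) := Finset.prod_nonneg hpos
  have hr34 : 0 ≤ (r : ℝ) ^ ((3 : ℝ) / 4) := Real.rpow_nonneg hr0.le _
  calc (2 : ℝ) ^ (r.primeFactors.card) * (r : ℝ) ^ ((3 : ℝ) / 4)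
      ≤ (4 ^ 256 * ((∏ p ∈ r.primeFactors, (1 - (p : ℝ)⁻¹)) *
          (∏ p ∈ r.primeFactors, (p : ℝ)) ^ ((1 : ℝ) / 4))) * (r : ℝ) ^ ((3 : ℝ) / 4) :=
        mul_le_mul_of_nonneg_right h3 hr34
    _ ≤ (4 ^ 256 * ((∏ p ∈ r.primeFactors, (1 - (p : ℝ)⁻¹)) * (r : ℝ) ^ ((1 : ℝ) / 4))) *
          (r : ℝ) ^ ((3 : ℝ) / 4) := by
        apply mul_le_mul_of_nonneg_right _ hr34
        apply mul_le_mul_of_nonneg_left _ (by positivity)
        exact mul_le_mul_of_nonneg_left h7 hP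
    _ = 4 ^ 256 * ((∏ p ∈ r.primeFactors, (1 - (p : ℝ)⁻¹)) *
          ((r : ℝ) ^ ((1 : ℝ) / 4) * (r : ℝ) ^ ((3 : ℝ) / 4))) := by ring
    _ = 4 ^ 256 * (r.totient : ℝ) := by rw [h8, h1]; ring

end PkNT

end Pool.Agent.Helper59.LUC
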